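import Pool.Agent.Y344.WR.Palette
/-!
# The wreath product of a class one graph with any graph is class one
-/
set_option autoImplicit false
open Classical
namespace Pool.Agent.Y344.WR

open Finset

/-- the `i`-th element of a finite set of natural numbers -/
noncomputable def pick (s : Finset ℕ) (i : ℕ) : ℕ :=
  if h : i < s.card then s.orderEmbOfFin rfl ⟨i, h⟩ else 0

theorem pick_mem {s : Finset ℕ} {i : ℕ} (h : i < s.card) : pick s i ∈ s := by
  unfold pick
  rw [dif_pos h]
  exact Finset.orderEmbOfFin_mem s rfl _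

theorem pick_inj {s : Finset ℕ} {i j : ℕ} (hi : i < s.card) (hj : j < s.card)
    (h : pick s i = pick s j) : i = j := by
  unfold pick at h
  rw [dif_pos hi, dif_pos hj] at h
  have := (s.orderEmbOfFin rfl).injective h
  simpa using this

theorem colouring {V W : Type} [Fintype V] [Fintype W] (G : SimpleGraph V) (A : SimpleGraph W)
    (r : W → W → Prop) (hr : Equivalence r)
    (hE : ∀ v v' w, r v v' → A.Adj v w → ∃ w', r w w' ∧ A.Adj v' w')
    (D k : ℕ) (hD : 1 ≤ D)
    (hk : ∀ v, D * (cls r v).card + (univ.filter (fun w => A.Adj v w)).card ≤ k)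
    (cG : V → V → ℕ) (hGs : ∀ x y, cG x y = cG y x) (hGlt : ∀ x y, G.Adj x y → cG x y < D)
    (hG : ∀ x y z, G.Adj x y → G.Adj x z → cG x y = cG x z → y = z) :
    ∃ col : V × W → V × W → ℕ, (∀ p q, col p q = col q p) ∧
      (∀ p q, ((p.1 = q.1 ∧ A.Adj p.2 q.2) ∨ (G.Adj p.1 q.1 ∧ r p.2 q.2)) → col p q < k) ∧
      (∀ p q q', ((p.1 = q.1 ∧ A.Adj p.2 q.2) ∨ (G.Adj p.1 q.1 ∧ r p.2 q.2)) →
        ((p.1 = q'.1 ∧ A.Adj p.2 q'.2) ∨ (G.Adj p.1 q'.1 ∧ r p.2 q'.2)) →
        col p q = col p q' → q = q') := by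
  obtain ⟨C, κ, hCs, hC1, hκ1, hκ2, hκC, hClt, hκlt, hκn, hκv, hcard, hcardv, hcardA⟩ :=
    palette r hr A hE D k hD hk
  let e : V → Fin (Fintype.card V) := Fintype.equivFin V
  have he : Function.Injective e := (Fintype.equivFin V).injective
  let a : W → W → ℕ := fun v w => if A.Adj v w then 1 else 0
  let b : W → W → ℕ := fun v w => if κ v w = none then 0 else 1
  have has : ∀ v w, a v w = a w v := by
    intro v w
    simp only [a, A.adj_comm v w]
  have hbs : ∀ v w, b v w = b w v := by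
    intro v w
    simp only [b, hκn v w]
  let extra : V × W → V × W → Prop := fun p q => κ p.2 q.2 ≠ none ∧ cG p.1 q.1 = 0
  have hextra : ∀ p q, extra p q ↔ extra q p := by
    intro p q
    simp only [extra, ne_eq, hκn p.2 q.2, hGs p.1 q.1]
  let ec : V × W → V × W → ℕ := fun p q =>
    if e p.1 < e q.1 then (κ p.2 q.2).getD 0 else (κ q.2 p.2).getD 0
  let col : V × W → V × W → ℕ := fun p q =>
    if p.1 = q.1 then pick (C p.2 q.2) 0
    else if extra p q then ec p q
    else pick (C p.2 q.2) (cG p.1 q.1 + a p.2 q.2 - b p.2 q.2)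
  -- the two kinds of colours
  let Adj' : V × W → V × W → Prop := fun p q =>
    ((p.1 = q.1 ∧ A.Adj p.2 q.2) ∨ (G.Adj p.1 q.1 ∧ r p.2 q.2))
  have kind : ∀ p q, Adj' p q →
      (p.1 = q.1 ∧ A.Adj p.2 q.2 ∧ 0 < (C p.2 q.2).card ∧ col p q = pick (C p.2 q.2) 0) ∨
      (p.1 ≠ q.1 ∧ G.Adj p.1 q.1 ∧ ¬ extra p q ∧
        cG p.1 q.1 + a p.2 q.2 - b p.2 q.2 < (C p.2 q.2).card ∧
        col p q = pick (C p.2 q.2) (cG p.1 q.1 + a p.2 q.2 - b p.2 q.2)) ∨
      (p.1 ≠ q.1 ∧ G.Adj p.1 q.1 ∧ extra p q ∧ col p q = ec p q) := by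
    intro p q hpq
    rcases hpq with ⟨h1, h2⟩ | ⟨h1, h2⟩
    · left
      refine ⟨h1, h2, ?_, ?_⟩
      · by_cases hrel : r p.2 q.2
        · have h3 := hcard p.2 q.2 h2.ne hrel
          rw [if_pos h2] at h3
          split_ifs at h3 <;> omega
        · exact hcardA p.2 q.2 h2 hrel
      · simp only [col, if_pos h1]
    · right
      have hne : p.1 ≠ q.1 := h1.ne
      by_cases hex : extra p q
      · right
        refine ⟨hne, h1, hex, ?_⟩
        simp only [col, if_neg hne, if_pos hex]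
      · left
        refine ⟨hne, h1, hex, ?_, ?_⟩
        · have hlt := hGlt p.1 q.1 h1
          by_cases hvw : p.2 = q.2
          · have h3 := hcardv p.2
            rw [← hvw]
            have ha : a p.2 p.2 = 0 := by simp [a]
            have hb : b p.2 p.2 = 0 := by simp [b, hκv]
            rw [ha, hb]
            omega
          · have h3 := hcard p.2 q.2 hvw h2
            have ha : a p.2 q.2 = if A.Adj p.2 q.2 then 1 else 0 := rfl
            by_cases hκ' : κ p.2 q.2 = none
            · have hb : b p.2 q.2 = 0 := by simp [b, hκ']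
              rw [if_pos hκ'] at h3
              rw [hb, ha]
              omega
            · have hb : b p.2 q.2 = 1 := by simp [b, hκ']
              rw [if_neg hκ'] at h3
              have h0 : cG p.1 q.1 ≠ 0 := fun h => hex ⟨hκ', h⟩
              rw [hb, ha]
              omega
        · simp only [col, if_neg hne, if_neg hex]
  have hec : ∀ p q, extra p q → (κ p.2 q.2 = some (ec p q) ∧ e p.1 < e q.1) ∨
      (κ q.2 p.2 = some (ec p q) ∧ ¬ e p.1 < e q.1) := by
    intro p q hex
    by_cases hlt : e p.1 < e q.1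
    · left
      refine ⟨?_, hlt⟩
      simp only [ec, if_pos hlt]
      obtain ⟨c, hc⟩ := Option.ne_none_iff_exists'.mp hex.1
      rw [hc]; rfl
    · right
      refine ⟨?_, hlt⟩
      simp only [ec, if_neg hlt]
      have h1 : κ q.2 p.2 ≠ none := fun h => hex.1 ((hκn _ _).mpr h)
      obtain ⟨c, hc⟩ := Option.ne_none_iff_exists'.mp h1
      rw [hc]; rfl
  refine ⟨col, ?_, ?_, ?_⟩
  · intro p q
    simp only [col]
    by_cases h1 : p.1 = q.1
    · rw [if_pos h1, if_pos h1.symm, hCs]
    · rw [if_neg h1, if_neg (Ne.symm h1)]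
      by_cases h2 : extra p q
      · rw [if_pos h2, if_pos ((hextra p q).mp h2)]
        simp only [ec]
        have h3 : e p.1 ≠ e q.1 := fun h => h1 (he h)
        rcases lt_or_gt_of_ne h3 with h4 | h4
        · rw [if_pos h4, if_neg (not_lt.mpr h4.le)]
        · rw [if_neg (not_lt.mpr h4.le), if_pos h4]
      · rw [if_neg h2, if_neg (fun h => h2 ((hextra p q).mpr h)), hCs p.2 q.2, hGs p.1 q.1,
          has p.2 q.2, hbs p.2 q.2]
  · intro p q hpq
    rcases kind p q hpq with ⟨_, _, h3, h4⟩ | ⟨_, _, _, h3, h4⟩ | ⟨_, _, h3, h4⟩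
    · rw [h4]; exact hClt _ _ _ (pick_mem h3)
    · rw [h4]; exact hClt _ _ _ (pick_mem h3)
    · rw [h4]
      rcases hec p q h3 with ⟨h5, _⟩ | ⟨h5, _⟩
      · exact hκlt _ _ _ h5
      · exact hκlt _ _ _ h5
  · -- a colour of the first two kinds belongs to `C`
    have hmem : ∀ p q, Adj' p q → (p.1 = q.1 ∨ ¬ extra p q) → col p q ∈ C p.2 q.2 := by
      intro p q hpq hor
      rcases kind p q hpq with ⟨_, _, h3, h4⟩ | ⟨_, _, _, h3, h4⟩ | ⟨h1, _, h3, h4⟩
      · rw [h4]; exact pick_mem h3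
      · rw [h4]; exact pick_mem h3
      · rcases hor with h | h
        · exact absurd h h1
        · exact absurd h3 h
    have hnot : ∀ p q u, extra p q → ec p q ∉ C p.2 u := by
      intro p q u hex
      rcases hec p q hex with ⟨h5, _⟩ | ⟨h5, _⟩
      · exact hκC _ _ _ _ (Or.inl h5)
      · exact hκC _ _ _ _ (Or.inr h5)
    -- a direct and a cross edge over the same pair have different colours
    have hmix : ∀ p q q', q.2 = q'.2 → p.1 = q.1 → A.Adj p.2 q.2 → 0 < (C p.2 q.2).card →
        col p q = pick (C p.2 q.2) 0 → ¬ extra p q' →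
        cG p.1 q'.1 + a p.2 q'.2 - b p.2 q'.2 < (C p.2 q'.2).card →
        col p q' = pick (C p.2 q'.2) (cG p.1 q'.1 + a p.2 q'.2 - b p.2 q'.2) →
        col p q ≠ col p q' := by
      intro p q q' hw hx hA hpos h1 hnex hlt h2 heq
      rw [h1, h2, hw] at heq
      rw [hw] at hpos hA
      have h3 := pick_inj hpos hlt heq
      have ha : a p.2 q'.2 = 1 := by simp [a, hA]
      by_cases hκ' : κ p.2 q'.2 = none
      · have hb : b p.2 q'.2 = 0 := by simp [b, hκ']
        omega
      · have hb : b p.2 q'.2 = 1 := by simp [b, hκ']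
        have h0 : cG p.1 q'.1 ≠ 0 := fun h => hnex ⟨hκ', h⟩
        omega
    intro p q q' hq hq' heq
    rcases kind p q hq with ⟨h1, h2, h3, h4⟩ | ⟨h1, h2, h3, h4, h5⟩ | ⟨h1, h2, h3, h4⟩
    · rcases kind p q' hq' with ⟨h1', h2', h3', h4'⟩ | ⟨h1', h2', h3', h4', h5'⟩ |
        ⟨h1', h2', h3', h4'⟩
      · have hw : q.2 = q'.2 := by
          apply hC1 p.2 _ _ (col p q) (hmem p q hq (Or.inl h1))
          rw [heq]; exact hmem p q' hq' (Or.inl h1')
        exact Prod.ext (h1.symm.trans h1') hw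
      · have hw : q.2 = q'.2 := by
          apply hC1 p.2 _ _ (col p q) (hmem p q hq (Or.inl h1))
          rw [heq]; exact hmem p q' hq' (Or.inr h3')
        exact absurd heq (hmix p q q' hw h1 h2 h3 h4 h3' h4' h5')
      · exfalso
        apply hnot p q' q.2 h3'
        rw [← h4', ← heq]
        exact hmem p q hq (Or.inl h1)
    · rcases kind p q' hq' with ⟨h1', h2', h3', h4'⟩ | ⟨h1', h2', h3', h4', h5'⟩ |
        ⟨h1', h2', h3', h4'⟩
      · have hw : q.2 = q'.2 := by
          apply hC1 p.2 _ _ (col p q) (hmem p q hq (Or.inr h3))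
          rw [heq]; exact hmem p q' hq' (Or.inl h1')
        exact absurd heq.symm (hmix p q' q hw.symm h1' h2' h3' h4' h3 h4 h5)
      · have hw : q.2 = q'.2 := by
          apply hC1 p.2 _ _ (col p q) (hmem p q hq (Or.inr h3))
          rw [heq]; exact hmem p q' hq' (Or.inr h3')
        rw [h5, h5', ← hw] at heq
        rw [← hw] at h4'
        have h6 := pick_inj h4 h4' heq
        have h7 : cG p.1 q.1 = cG p.1 q'.1 := by
          by_cases hκ' : κ p.2 q.2 = none
          · have hb : b p.2 q.2 = 0 := by simp [b, hκ']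
            omega
          · have hb : b p.2 q.2 = 1 := by simp [b, hκ']
            have h0 : cG p.1 q.1 ≠ 0 := fun h => h3 ⟨hκ', h⟩
            have h0' : cG p.1 q'.1 ≠ 0 := fun h => h3' ⟨by rw [← hw]; exact hκ', h⟩
            omega
        exact Prod.ext (hG p.1 q.1 q'.1 h2 h2' h7) hw
      · exfalso
        apply hnot p q' q.2 h3'
        rw [← h4', ← heq]
        exact hmem p q hq (Or.inr h3)
    · rcases kind p q' hq' with ⟨h1', h2', h3', h4'⟩ | ⟨h1', h2', h3', h4', h5'⟩ |
        ⟨h1', h2', h3', h4'⟩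
      · exfalso
        apply hnot p q q'.2 h3
        rw [← h4, heq]
        exact hmem p q' hq' (Or.inl h1')
      · exfalso
        apply hnot p q q'.2 h3
        rw [← h4, heq]
        exact hmem p q' hq' (Or.inr h3')
      · have hy : q.1 = q'.1 := hG p.1 q.1 q'.1 h2 h2' (by rw [h3.2, h3'.2])
        rw [h4, h4'] at heq
        rcases hec p q h3 with ⟨h5, h6⟩ | ⟨h5, h6⟩
        · rcases hec p q' h3' with ⟨h7, h8⟩ | ⟨h7, h8⟩
          · rw [heq] at h5
            exact Prod.ext hy (hκ1 _ _ _ _ h5 h7)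
          · rw [← hy] at h8
            exact absurd h6 h8
        · rcases hec p q' h3' with ⟨h7, h8⟩ | ⟨h7, h8⟩
          · rw [← hy] at h8
            exact absurd h8 h6
          · rw [heq] at h5
            exact Prod.ext hy (hκ2 _ _ _ _ h5 h7)

/-- The set of numbers of colours of proper edge colourings. -/
def ecSet {X : Type} (H : SimpleGraph X) : Set ℕ :=
  {k : ℕ | ∃ c : Sym2 X → Fin k, ∀ e ∈ H.edgeSet, ∀ f ∈ H.edgeSet,
    e ≠ f → (∃ v, v ∈ e ∧ v ∈ f) → c e ≠ c f}

theorem maxDegree_le {X : Type} [Fintype X] (H : SimpleGraph X) (k : ℕ) (hk : k ∈ ecSet H) :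
    H.maxDegree ≤ k := by
  obtain ⟨c, hc⟩ := hk
  apply SimpleGraph.maxDegree_le_of_forall_degree_le
  intro v
  rw [← SimpleGraph.card_neighborFinset_eq_degree]
  have h1 : (H.neighborFinset v).card ≤ (univ : Finset (Fin k)).card := by
    apply Finset.card_le_card_of_injOn (fun w => c s(v, w)) (fun _ _ => mem_univ _)
    intro w hw w' hw' heq
    rw [mem_coe, SimpleGraph.mem_neighborFinset] at hw hw'
    by_contra hne
    refine hc s(v, w) hw s(v, w') hw' ?_ ⟨v, by simp, by simp⟩ heq
    intro h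
    rw [Sym2.eq_iff] at h
    rcases h with ⟨_, h⟩ | ⟨h, h'⟩
    · exact hne h
    · exact hne (h'.trans h)
  simpa using h1

theorem final (V W : Type) [Fintype V] [Fintype W] (G : SimpleGraph V) (G' : SimpleGraph W)
      (H : SimpleGraph (V × W))
      (hH : H = SimpleGraph.fromRel (fun p q : V × W =>
            (p.1 = q.1 ∧ G'.Adj p.2 q.2) ∨
            (G.Adj p.1 q.1 ∧ ∃ φ : G' ≃g G', φ p.2 = q.2)))
      (hGne : G.edgeSet.Nonempty)
      (hGc : sInf (ecSet G) = G.maxDegree) :
      sInf (ecSet H) = H.maxDegree := by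
  let r : W → W → Prop := fun v w => ∃ φ : G' ≃g G', φ v = w
  have hr : Equivalence r := by
    refine ⟨fun v => ⟨RelIso.refl _, rfl⟩, ?_, ?_⟩
    · rintro v w ⟨φ, rfl⟩
      exact ⟨φ.symm, by simp⟩
    · rintro v w u ⟨φ, rfl⟩ ⟨ψ, rfl⟩
      exact ⟨φ.trans ψ, rfl⟩
  have hE : ∀ v v' w, r v v' → G'.Adj v w → ∃ w', r w w' ∧ G'.Adj v' w' := by
    rintro v v' w ⟨φ, rfl⟩ hvw
    exact ⟨φ w, ⟨φ, rfl⟩, φ.map_rel_iff.mpr hvw⟩
  have hHadj : ∀ p q, H.Adj p q ↔ ((p.1 = q.1 ∧ G'.Adj p.2 q.2) ∨ (G.Adj p.1 q.1 ∧ r p.2 q.2)) := by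
    intro p q
    rw [hH, SimpleGraph.fromRel_adj]
    constructor
    · rintro ⟨_, h | h⟩
      · exact h
      · rcases h with ⟨h1, h2⟩ | ⟨h1, h2⟩
        · exact Or.inl ⟨h1.symm, h2.symm⟩
        · exact Or.inr ⟨h1.symm, hr.symm h2⟩
    · intro h
      refine ⟨?_, Or.inl h⟩
      rintro rfl
      rcases h with ⟨_, h2⟩ | ⟨h1, _⟩
      · exact G'.loopless.irrefl _ h2
      · exact G.loopless.irrefl _ h1
  -- the colouring of `G`
  obtain ⟨e0, he0⟩ := hGne
  have hVne : Nonempty V := by
    induction e0 using Sym2.ind with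
    | _ x y => exact ⟨x⟩
  have hD : 1 ≤ G.maxDegree := by
    induction e0 using Sym2.ind with
    | _ x y =>
      have h1 : G.Adj x y := he0
      have h2 : 0 < G.degree x := (G.degree_pos_iff_exists_adj x).mpr ⟨y, h1⟩
      exact le_trans h2 (G.degree_le_maxDegree x)
  have hne : (ecSet G).Nonempty := by
    by_contra h
    rw [Set.not_nonempty_iff_eq_empty] at h
    rw [h, Nat.sInf_empty] at hGc
    omega
  have hmem := Nat.sInf_mem hne
  rw [hGc] at hmem
  obtain ⟨c, hc⟩ := hmem
  -- the degrees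
  obtain ⟨x0, hx0⟩ := G.exists_maximal_degree_vertex
  have hk : ∀ v, G.maxDegree * (cls r v).card +
      (univ.filter (fun w => G'.Adj v w)).card ≤ H.maxDegree := by
    intro v
    refine le_trans ?_ (H.degree_le_maxDegree (x0, v))
    rw [hx0, ← SimpleGraph.card_neighborFinset_eq_degree,
      ← SimpleGraph.card_neighborFinset_eq_degree, ← Finset.card_product,
      ← Finset.card_image_of_injective (univ.filter (fun w => G'.Adj v w))
        (f := fun w => ((x0, w) : V × W)) (fun a b h => (Prod.ext_iff.mp h).2),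
      ← Finset.card_union_of_disjoint]
    · apply Finset.card_le_card
      intro p hp
      rw [SimpleGraph.mem_neighborFinset, hHadj]
      rw [mem_union, mem_product, mem_image, SimpleGraph.mem_neighborFinset, mem_cls] at hp
      rcases hp with ⟨h1, h2⟩ | ⟨w, hw, rfl⟩
      · exact Or.inr ⟨h1, h2⟩
      · rw [mem_filter] at hw
        exact Or.inl ⟨rfl, hw.2⟩
    · rw [Finset.disjoint_left]
      intro p hp hp'
      rw [mem_product, SimpleGraph.mem_neighborFinset] at hp
      rw [mem_image] at hp'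
      obtain ⟨w, _, rfl⟩ := hp'
      exact G.loopless.irrefl _ hp.1
  obtain ⟨col, hcol1, hcol2, hcol3⟩ := colouring G G' r hr hE G.maxDegree H.maxDegree hD hk
    (fun x y => (c s(x, y) : ℕ)) (fun x y => by simp only [Sym2.eq_swap])
    (fun x y _ => (c s(x, y)).isLt)
    (by
      intro x y z hxy hxz heq
      by_contra hne
      refine hc s(x, y) hxy s(x, z) hxz ?_ ⟨x, by simp, by simp⟩ (Fin.ext heq)
      intro h
      rw [Sym2.eq_iff] at h
      rcases h with ⟨_, h⟩ | ⟨h, h'⟩
      · exact hne h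
      · exact hne (h'.trans h))
  have hHmem : H.maxDegree ∈ ecSet H := by
    by_cases hemp : IsEmpty (V × W)
    · refine ⟨fun e => ?_, fun e => ?_⟩
      · exact (hemp.false (Quot.out e).1).elim
      · exact (hemp.false (Quot.out e).1).elim
    · rw [not_isEmpty_iff] at hemp
      obtain ⟨p0⟩ := hemp
      have hpos : 0 < H.maxDegree := by
        have h1 := hk p0.2
        have h2 := cls_card_pos r hr p0.2
        have h3 : 0 < G.maxDegree * (cls r p0.2).card := Nat.mul_pos hD h2
        omega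
      refine ⟨Sym2.lift ⟨fun p q => if h : col p q < H.maxDegree then ⟨col p q, h⟩ else
        ⟨0, hpos⟩, ?_⟩, ?_⟩
      · intro p q
        simp only [hcol1 p q]
      · intro e he f hf hef hv heq
        obtain ⟨v, hve, hvf⟩ := hv
        obtain ⟨q, rfl⟩ := Sym2.mem_iff_exists.mp hve
        obtain ⟨q', rfl⟩ := Sym2.mem_iff_exists.mp hvf
        rw [SimpleGraph.mem_edgeSet, hHadj] at he hf
        apply hef
        rw [Sym2.lift_mk, Sym2.lift_mk] at heq
        simp only [dif_pos (hcol2 _ _ he), dif_pos (hcol2 _ _ hf), Fin.mk.injEq] at heq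
        rw [hcol3 v q q' he hf heq]
  apply le_antisymm
  · exact Nat.sInf_le hHmem
  · exact maxDegree_le H _ (Nat.sInf_mem ⟨_, hHmem⟩)

end Pool.Agent.Y344.WR
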