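import Pool.Agent.Y344.WR.Peel
/-!
# Colour palettes for the pairs of vertices of `G'`
-/
set_option autoImplicit false
namespace Pool.Agent.Y344.WR

open Finset Pool.Agent.MPd14d18

/-- code of a nonzero integer -/
def enc (d : ℤ) : ℕ := if 0 < d then (2 * d - 2).toNat else (-2 * d - 1).toNat

theorem enc_inj {a b : ℤ} (ha : a ≠ 0) (hb : b ≠ 0) (h : enc a = enc b) : a = b := by
  unfold enc at h
  split_ifs at h <;> omega

theorem enc_lt {a : ℤ} {h : ℕ} (ha : a ≠ 0) (hb : |a| ≤ (h : ℤ)) : enc a < 2 * h := by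
  rw [abs_le] at hb
  unfold enc
  split_ifs <;> omega

section palette

variable {W : Type*} [Fintype W] [DecidableEq W]

open Classical in
theorem palette (r : W → W → Prop) (hr : Equivalence r)
    (A : SimpleGraph W)
    (hE : ∀ v v' w, r v v' → A.Adj v w → ∃ w', r w w' ∧ A.Adj v' w')
    (D k : ℕ) (hD : 1 ≤ D)
    (hk : ∀ v, D * (cls r v).card + (univ.filter (fun w => A.Adj v w)).card ≤ k) :
    ∃ (C : W → W → Finset ℕ) (κ : W → W → Option ℕ),
      (∀ v w, C v w = C w v) ∧
      (∀ v w w' c, c ∈ C v w → c ∈ C v w' → w = w') ∧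
      (∀ v w w' c, κ v w = some c → κ v w' = some c → w = w') ∧
      (∀ v w w' c, κ w v = some c → κ w' v = some c → w = w') ∧
      (∀ v w u c, κ v w = some c ∨ κ w v = some c → c ∉ C v u) ∧
      (∀ v w c, c ∈ C v w → c < k) ∧ (∀ v w c, κ v w = some c → c < k) ∧
      (∀ v w, κ v w = none ↔ κ w v = none) ∧ (∀ v, κ v v = none) ∧
      (∀ v w, v ≠ w → r v w → (C v w).card + (if κ v w = none then 0 else 1) =
        D + (if A.Adj v w then 1 else 0)) ∧
      (∀ v, D ≤ (C v v).card) ∧ (∀ v w, A.Adj v w → ¬ r v w → 1 ≤ (C v w).card) := by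
  obtain ⟨rot, hrot1, hrot2, hrot3, hrot4⟩ := exists_rot r hr
  -- components
  let R : W → W → Prop := Relation.EqvGen (fun a b => r a b ∨ A.Adj a b)
  have hR : Equivalence R := Relation.EqvGen.is_equivalence _
  let X : W → Finset W := fun v => univ.filter (fun w => R v w)
  have hXmem : ∀ v w, w ∈ X v ↔ R v w := by intro v w; simp [X]
  have hXeq : ∀ v w, R v w → X v = X w := by
    intro v w h
    ext u
    rw [hXmem, hXmem]
    exact ⟨fun h' => hR.trans (hR.symm h) h', fun h' => hR.trans h h'⟩
  have hRr : ∀ v w, r v w → R v w := fun v w h => Relation.EqvGen.rel _ _ (Or.inl h)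
  have hRA : ∀ v w, A.Adj v w → R v w := fun v w h => Relation.EqvGen.rel _ _ (Or.inr h)
  -- base points
  have hbase : ∀ Y : Finset W, ∃ b : W → W, ∀ v, Y = X v → b v ∈ Y ∧
      ∀ w ∈ Y, (cls r (b v)).card ≤ (cls r w).card := by
    intro Y
    by_cases hY : Y.Nonempty
    · obtain ⟨b, hb, hb'⟩ := Finset.exists_min_image Y (fun w => (cls r w).card) hY
      exact ⟨fun _ => b, fun _ _ => ⟨hb, hb'⟩⟩
    · refine ⟨fun v => v, fun v hv => absurd ⟨v, ?_⟩ hY⟩
      rw [hv, hXmem]; exact hR.refl v
  choose base hbase using hbase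
  let hh : Finset W → ℕ := fun Y => if hY : Y.Nonempty then
    ((cls r (base Y hY.choose)).card - 1) / 2 else 0
  -- the properties of `hh` needed
  have hhh : ∀ v, ∃ b ∈ X v, (cls r b).card ≤ 2 * hh (X v) + 2 ∧
      ∀ w ∈ X v, 2 * hh (X v) < (cls r w).card := by
    intro v
    have hY : (X v).Nonempty := ⟨v, (hXmem v v).mpr (hR.refl v)⟩
    have hc : hY.choose ∈ X v := hY.choose_spec
    have hXc : X v = X hY.choose := hXeq _ _ ((hXmem _ _).mp hc)
    have hb := hbase (X v) hY.choose hXc
    have he : hh (X v) = ((cls r (base (X v) hY.choose)).card - 1) / 2 := by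
      simp only [hh, dif_pos hY]
    refine ⟨base (X v) hY.choose, hb.1, ?_, ?_⟩
    · rw [he]; omega
    · intro w hw
      have h1 := hb.2 w hw
      have h2 := cls_card_pos r hr (base (X v) hY.choose)
      rw [he]; omega
  have hh2 : ∀ v, 2 * hh (X v) < (cls r v).card := by
    intro v
    obtain ⟨b, _, _, h3⟩ := hhh v
    exact h3 v ((hXmem v v).mpr (hR.refl v))
  have hKr : ∀ h v w, KR rot h v w → r v w := by
    rintro h v w ⟨d, _, _, rfl⟩
    exact hrot1 d v
  -- multiplicities
  let μ : W → W → ℕ := fun v w => if v = w then 0 else (if A.Adj v w then 1 else 0) +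
    (if r v w then D - (if KR rot (hh (X v)) v w then 1 else 0) else 0)
  have hμ0 : ∀ u, μ u u = 0 := by intro u; simp [μ]
  have hKsymm : ∀ v w, KR rot (hh (X v)) v w → KR rot (hh (X w)) w v := by
    intro v w h
    rw [← hXeq v w (hRr v w (hKr _ _ _ h))]
    exact h.symm r hrot2 hrot3
  have hKsymm' : ∀ v w, KR rot (hh (X v)) v w ↔ KR rot (hh (X w)) w v :=
    fun v w => ⟨hKsymm v w, hKsymm w v⟩
  have hμ : ∀ u w, μ u w = μ w u := by
    intro u w
    simp only [μ]
    have e1 : (u = w) = (w = u) := propext eq_comm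
    have e2 : (A.Adj u w) = (A.Adj w u) := propext (A.adj_comm u w)
    have e3 : (r u w) = (r w u) := propext ⟨fun h => hr.symm h, fun h => hr.symm h⟩
    have e4 : (KR rot (hh (X u)) u w) = (KR rot (hh (X w)) w u) := propext (hKsymm' u w)
    simp only [e1, e2, e3, e4]
  have hμ3 : ∀ v w, μ v w ≤ D + 1 := by
    intro v w
    simp only [μ]
    split_ifs <;> omega
  have hμ2 : ∀ v w, ¬ r v w → μ v w ≤ 1 := by
    intro v w h
    simp only [μ, if_neg h]
    split_ifs <;> omega
  have hμ1 : ∀ v w, A.Adj v w → ¬ r v w → 1 ≤ μ v w := by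
    intro v w h h'
    simp only [μ, if_neg h', if_neg h.ne, if_pos h]
    omega
  have hdeg : ∀ v, ∑ w, μ v w + D + 2 * hh (X v) ≤ k := by
    intro v
    have h1 : ∑ w, (μ v w + (if KR rot (hh (X v)) v w then 1 else 0) + (if w = v then D else 0)) ≤
        ∑ w, ((if r v w then D else 0) + (if A.Adj v w then 1 else 0)) := by
      refine Finset.sum_le_sum fun w _ => ?_
      by_cases hvw : w = v
      · subst hvw
        have h2 : ¬ KR rot (hh (X w)) w w := fun h => KR_ne r hrot3 (hh2 w) h rfl
        simp only [hμ0, if_neg h2, if_pos (hr.refl w), if_true]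
        omega
      · have hvw' : ¬ (v = w) := fun h => hvw h.symm
        by_cases hrel : r v w
        · simp only [μ, if_neg hvw', if_pos hrel, if_neg hvw]
          split_ifs <;> omega
        · have h2 : ¬ KR rot (hh (X v)) v w := fun h => hrel (hKr _ _ _ h)
          simp only [μ, if_neg hvw', if_neg hrel, if_neg hvw, if_neg h2]
          split_ifs <;> omega
    rw [Finset.sum_add_distrib, Finset.sum_add_distrib, Finset.sum_add_distrib] at h1
    have h2 : ∑ w, (if KR rot (hh (X v)) v w then 1 else 0) = 2 * hh (X v) := by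
      rw [← Finset.card_filter]
      exact KR_card r hrot2 hrot3 (hh (X v)) v (hh2 v)
    have h3 : ∑ w, (if w = v then D else 0) = D := by simp
    have h4 : ∑ w, (if r v w then D else 0) = D * (cls r v).card := by
      rw [← Finset.sum_filter, Finset.sum_const, smul_eq_mul, mul_comm]
      rfl
    have h5 : ∑ w, (if A.Adj v w then 1 else 0) = (univ.filter (fun w => A.Adj v w)).card := by
      rw [Finset.card_filter]
    have h6 := hk v
    rw [h2, h3, h4, h5] at h1
    omega
  -- colourings of the components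
  let P : Finset W → (ℕ → W → W) → Prop := fun Y m => (∀ c v, m c (m c v) = v) ∧
    ∀ u w, u ≠ w → mu (range (k - 2 * hh Y)) m u w = if u ∈ Y ∧ w ∈ Y then μ u w else 0
  have hcol : ∀ v, ∃ m, P (X v) m := by
    intro v
    obtain ⟨b, hb, hb2, _⟩ := hhh v
    have hXb : X v = X b := hXeq _ _ ((hXmem _ _).mp hb)
    refine col_component r hr A hE μ hμ hμ0 (range (k - 2 * hh (X v))) D hD (X v) ?_ ?_ ?_
      hμ1 hμ2 hμ3 b hb (fun x => rot (hh (X v) + 1) x) ?_
    · intro a ha w haw
      rw [hXmem] at ha ⊢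
      exact hR.trans ha (hRr _ _ haw)
    · intro S hSX hSne hSX' hSr
      by_contra hcon
      push Not at hcon
      obtain ⟨a, ha⟩ := hSne
      obtain ⟨b', hb'X, hb'S⟩ := hSX'
      have hclosed : ∀ p q, A.Adj p q → p ∈ S → q ∈ S := by
        intro p q hpq hp
        by_contra hq
        refine hcon p hp q ?_ hq hpq
        have := hSX hp
        rw [hXmem] at this ⊢
        exact hR.trans this (hRA _ _ hpq)
      have key : ∀ p q, R p q → (p ∈ S ↔ q ∈ S) := by
        intro p q hpq
        induction hpq with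
        | rel p q h =>
          rcases h with h | h
          · exact ⟨fun hp => hSr p hp q h, fun hq => hSr q hq p (hr.symm h)⟩
          · exact ⟨hclosed p q h, hclosed q p h.symm⟩
        | refl p => exact Iff.rfl
        | symm p q _ ih => exact ih.symm
        | trans p q s _ _ ih1 ih2 => exact ih1.trans ih2
      apply hb'S
      have ha' := hSX ha
      rw [hXmem] at ha' hb'X
      exact (key a b' (hR.trans (hR.symm ha') hb'X)).mp ha
    · intro a ha
      rw [hXmem] at ha
      have h1 := hdeg a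
      rw [← hXeq v a ha] at h1
      rw [card_range]
      omega
    · intro x hx z hxz hne
      rw [mem_cls] at hx
      by_cases hxz' : x = z
      · rw [hxz', hμ0]; omega
      · have hXx : X x = X v := by
          rw [hXb]; exact (hXeq _ _ (hRr _ _ hx)).symm
        have hcard : (cls r x).card ≤ 2 * hh (X v) + 2 := by
          rw [← cls_eq r hr hx]; exact hb2
        rcases KR_cover r hrot2 hrot3 hrot4 (hh (X v)) x hcard z hxz (Ne.symm hxz') with h | h
        · simp only [μ, if_neg hxz', if_pos hxz, hXx, if_pos h]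
          split_ifs <;> omega
        · exact absurd h hne
  let fam : Finset W → (ℕ → W → W) := fun Y => if h : ∃ m, P Y m then h.choose else fun _ v => v
  have hfam : ∀ v, P (X v) (fam (X v)) := by
    intro v
    simp only [fam, dif_pos (hcol v)]
    exact (hcol v).choose_spec
  let C : W → W → Finset ℕ := fun v w =>
    (range (k - 2 * hh (X v))).filter (fun c => fam (X v) c v = w)
  have hCmem : ∀ v w c, c ∈ C v w ↔ c < k - 2 * hh (X v) ∧ fam (X v) c v = w := by
    intro v w c; simp [C]
  have hselfX : ∀ v, v ∈ X v := fun v => (hXmem v v).mpr (hR.refl v)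
  have hC1 : ∀ v w, v ≠ w → w ∈ X v → (C v w).card = μ v w := by
    intro v w hvw hw
    have h1 := (hfam v).2 v w hvw
    rw [if_pos ⟨hselfX v, hw⟩, mu_eq_card] at h1
    exact h1
  have hC2 : ∀ v w, w ∉ X v → C v w = ∅ := by
    intro v w hw
    have hvw : v ≠ w := fun h => hw (h ▸ hselfX v)
    have h1 := (hfam v).2 v w hvw
    rw [if_neg (fun h => hw h.2), mu_eq_card] at h1
    exact Finset.card_eq_zero.mp h1
  have hinv : ∀ v c u, fam (X v) c (fam (X v) c u) = u := fun v => (hfam v).1
  -- the extra colours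
  let dd : W → W → ℤ := fun v w => if h : KR rot (hh (X v)) v w then h.choose else 0
  have hdd : ∀ v w, KR rot (hh (X v)) v w → dd v w ≠ 0 ∧ |dd v w| ≤ (hh (X v) : ℤ) ∧
      rot (dd v w) v = w := by
    intro v w h
    simp only [dd, dif_pos h]
    exact h.choose_spec
  let κ : W → W → Option ℕ := fun v w =>
    if KR rot (hh (X v)) v w then some (k - 2 * hh (X v) + enc (dd v w)) else none
  have hκ : ∀ v w c, κ v w = some c ↔ KR rot (hh (X v)) v w ∧
      k - 2 * hh (X v) + enc (dd v w) = c := by
    intro v w c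
    simp only [κ]
    by_cases h : KR rot (hh (X v)) v w
    · simp [h]
    · simp [h]
  have hκn : ∀ v w, κ v w = none ↔ ¬ KR rot (hh (X v)) v w := by
    intro v w
    simp only [κ]
    by_cases h : KR rot (hh (X v)) v w
    · simp [h]
    · simp [h]
  have h2k : ∀ v, 2 * hh (X v) ≤ k := fun v => by have := hdeg v; omega
  refine ⟨C, κ, ?_, ?_, ?_, ?_, ?_, ?_, ?_, ?_, ?_, ?_, ?_, ?_⟩
  · -- symmetry of `C`
    intro v w
    by_cases hw : w ∈ X v
    · have hXvw : X v = X w := hXeq v w ((hXmem v w).mp hw)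
      ext c
      rw [hCmem, hCmem, ← hXvw]
      constructor
      · rintro ⟨h1, h2⟩
        refine ⟨h1, ?_⟩
        have h3 := hinv v c v
        rw [h2] at h3; exact h3
      · rintro ⟨h1, h2⟩
        refine ⟨h1, ?_⟩
        have h3 := hinv v c w
        rw [h2] at h3; exact h3
    · have hv : v ∉ X w := by
        rw [hXmem] at hw ⊢
        exact fun h => hw (hR.symm h)
      rw [hC2 v w hw, hC2 w v hv]
  · intro v w w' c h1 h2
    rw [hCmem] at h1 h2
    rw [← h1.2, ← h2.2]
  · intro v w w' c h1 h2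
    rw [hκ] at h1 h2
    obtain ⟨a1, a2, a3⟩ := hdd v w h1.1
    obtain ⟨b1, b2, b3⟩ := hdd v w' h2.1
    have h3 : enc (dd v w) = enc (dd v w') := by omega
    rw [← a3, ← b3, enc_inj a1 b1 h3]
  · intro v w w' c h1 h2
    rw [hκ] at h1 h2
    obtain ⟨a1, a2, a3⟩ := hdd w v h1.1
    obtain ⟨b1, b2, b3⟩ := hdd w' v h2.1
    have hXw : X w = X v := hXeq _ _ (hRr _ _ (hKr _ _ _ h1.1))
    have hXw' : X w' = X v := hXeq _ _ (hRr _ _ (hKr _ _ _ h2.1))
    have h3 : enc (dd w v) = enc (dd w' v) := by
      have e1 := h1.2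
      have e2 := h2.2
      rw [hXw] at e1
      rw [hXw'] at e2
      omega
    have h4 := enc_inj a1 b1 h3
    have h5 : rot (-(dd w v)) (rot (dd w v) w) = w := by
      rw [hrot2, neg_add_cancel]; exact rot_zero r hrot3 w
    have h6 : rot (-(dd w' v)) (rot (dd w' v) w') = w' := by
      rw [hrot2, neg_add_cancel]; exact rot_zero r hrot3 w'
    rw [a3] at h5
    rw [b3] at h6
    rw [← h5, ← h6, h4]
  · intro v w u c h hc
    rw [hCmem] at hc
    rcases h with h | h
    · rw [hκ] at h
      omega
    · rw [hκ] at h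
      have hXw : X w = X v := hXeq _ _ (hRr _ _ (hKr _ _ _ h.1))
      rw [hXw] at h
      omega
  · intro v w c hc
    rw [hCmem] at hc
    omega
  · intro v w c h
    rw [hκ] at h
    obtain ⟨a1, a2, a3⟩ := hdd v w h.1
    have h3 := enc_lt a1 a2
    have h4 := h2k v
    omega
  · intro v w
    rw [hκn, hκn, hKsymm' v w]
  · intro v
    rw [hκn]
    exact fun h => KR_ne r hrot3 (hh2 v) h rfl
  · intro v w hvw hrel
    rw [hC1 v w hvw ((hXmem _ _).mpr (hRr _ _ hrel))]
    simp only [μ, if_neg hvw, if_pos hrel, hκn]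
    by_cases hK : KR rot (hh (X v)) v w
    · simp only [hK, not_true_eq_false, if_true, if_false]
      omega
    · simp only [hK, not_false_eq_true, if_true, if_false]
      omega
  · intro v
    have h1 := col_missing (hfam v).2 hμ0 v
    rw [if_pos (hselfX v), card_range] at h1
    have h2 : ∑ w ∈ X v, μ v w ≤ ∑ w, μ v w := Finset.sum_le_sum_of_subset (Finset.subset_univ _)
    have h3 := hdeg v
    have h4 : (C v v).card =
      ((range (k - 2 * hh (X v))).filter (fun c => fam (X v) c v = v)).card := rfl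
    omega
  · intro v w hvw hnr
    rw [hC1 v w hvw.ne ((hXmem _ _).mpr (hRA _ _ hvw))]
    exact hμ1 v w hvw hnr

end palette

end Pool.Agent.Y344.WR
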