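import Mathlib
/-!
# Rotations of the classes of an equivalence relation
-/
set_option autoImplicit false
namespace Pool.Agent.Y344.WR

open Finset Equiv

section rot

variable {W : Type*} [Fintype W] [DecidableEq W]

/-- The class of `v`. -/
def cls (r : W → W → Prop) [DecidableRel r] (v : W) : Finset W := univ.filter (fun w => r v w)

theorem mem_cls (r : W → W → Prop) [DecidableRel r] (v w : W) : w ∈ cls r v ↔ r v w := by
  simp [cls]

theorem cls_eq (r : W → W → Prop) [DecidableRel r] (hr : Equivalence r) {v w : W} (h : r v w) :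
    cls r v = cls r w := by
  ext u
  rw [mem_cls, mem_cls]
  exact ⟨fun h' => hr.trans (hr.symm h) h', fun h' => hr.trans h h'⟩

theorem cls_card_pos (r : W → W → Prop) [DecidableRel r] (hr : Equivalence r) (v : W) :
    0 < (cls r v).card :=
  Finset.card_pos.mpr ⟨v, (mem_cls r v v).mpr (hr.refl v)⟩

theorem zpow_mem {s : Finset W} {f : Perm W} (hf : f.IsCycleOn (s : Set W)) (d : ℤ) {v : W}
    (hv : v ∈ s) : (f ^ d) v ∈ s := by
  have h := hf.1.perm_zpow d
  exact h.mapsTo hv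

theorem exists_rot (r : W → W → Prop) [DecidableRel r] (hr : Equivalence r) :
    ∃ rot : ℤ → W → W, (∀ d v, r v (rot d v)) ∧ (∀ a b v, rot a (rot b v) = rot (a + b) v) ∧
      (∀ d v, rot d v = v ↔ ((cls r v).card : ℤ) ∣ d) ∧
      (∀ v w, r v w → ∃ n : ℕ, n < (cls r v).card ∧ rot n v = w) := by
  classical
  have hex : ∀ s : Finset W, ∃ f : Perm W, f.IsCycleOn (s : Set W) ∧ f.support ⊆ s :=
    fun s => s.exists_cycleOn
  choose f hf _ using hex
  have hmem : ∀ v, v ∈ cls r v := fun v => (mem_cls r v v).mpr (hr.refl v)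
  have hr1 : ∀ (d : ℤ) v, r v ((f (cls r v) ^ d) v) := by
    intro d v
    rw [← mem_cls r]
    exact zpow_mem (hf _) d (hmem v)
  refine ⟨fun d v => (f (cls r v) ^ d) v, hr1, ?_, ?_, ?_⟩
  · intro a b v
    have h : cls r ((f (cls r v) ^ b) v) = cls r v := (cls_eq r hr (hr1 b v)).symm
    simp only
    rw [h, zpow_add, Perm.mul_apply]
  · intro d v
    exact (hf (cls r v)).zpow_apply_eq (hmem v)
  · intro v w hvw
    obtain ⟨n, hn, h⟩ := (hf (cls r v)).exists_pow_eq (hmem v) ((mem_cls r v w).mpr hvw)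
    exact ⟨n, hn, by simpa using h⟩

/-- `w` is at distance between `1` and `h` from `v` on its cycle. -/
def KR (rot : ℤ → W → W) (h : ℕ) (v w : W) : Prop :=
  ∃ d : ℤ, d ≠ 0 ∧ |d| ≤ (h : ℤ) ∧ rot d v = w

theorem rot_zero {rot : ℤ → W → W} (r : W → W → Prop) [DecidableRel r]
    (h3 : ∀ d v, rot d v = v ↔ ((cls r v).card : ℤ) ∣ d) (v : W) : rot 0 v = v :=
  (h3 0 v).mpr (dvd_zero _)

theorem KR.symm {rot : ℤ → W → W} (r : W → W → Prop) [DecidableRel r]
    (h2 : ∀ a b v, rot a (rot b v) = rot (a + b) v)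
    (h3 : ∀ d v, rot d v = v ↔ ((cls r v).card : ℤ) ∣ d) {h : ℕ} {v w : W} (hK : KR rot h v w) :
    KR rot h w v := by
  obtain ⟨d, hd, hd', rfl⟩ := hK
  refine ⟨-d, by simpa using hd, by rwa [abs_neg], ?_⟩
  rw [h2, neg_add_cancel]
  exact rot_zero r h3 v

theorem rot_inj {rot : ℤ → W → W} (r : W → W → Prop) [DecidableRel r]
    (h2 : ∀ a b v, rot a (rot b v) = rot (a + b) v)
    (h3 : ∀ d v, rot d v = v ↔ ((cls r v).card : ℤ) ∣ d) {v : W} {a b : ℤ}
    (hlt : |a - b| < (cls r v).card) (hab : rot a v = rot b v) : a = b := by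
  have h4 : rot (a - b) v = v := by
    have : rot (-b) (rot a v) = rot (-b) (rot b v) := by rw [hab]
    rw [h2, h2, neg_add_cancel, rot_zero r h3] at this
    rw [← this]; congr 1; ring
  rw [h3] at h4
  have := Int.eq_zero_of_abs_lt_dvd h4 hlt
  linarith

theorem KR_ne {rot : ℤ → W → W} (r : W → W → Prop) [DecidableRel r]
    (h3 : ∀ d v, rot d v = v ↔ ((cls r v).card : ℤ) ∣ d) {h : ℕ} {v w : W}
    (hh : 2 * h < (cls r v).card) (hK : KR rot h v w) : v ≠ w := by
  rintro rfl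
  obtain ⟨d, hd, hd', h4⟩ := hK
  rw [h3] at h4
  exact hd (Int.eq_zero_of_abs_lt_dvd h4 (by omega))

theorem KR_card {rot : ℤ → W → W} (r : W → W → Prop) [DecidableRel r]
    (h2 : ∀ a b v, rot a (rot b v) = rot (a + b) v)
    (h3 : ∀ d v, rot d v = v ↔ ((cls r v).card : ℤ) ∣ d) (h : ℕ) [DecidableRel (KR rot h)] (v : W)
    (hh : 2 * h < (cls r v).card) : (univ.filter (fun w => KR rot h v w)).card = 2 * h := by
  have h5 : univ.filter (fun w => KR rot h v w) =
      ((Finset.Icc (-(h : ℤ)) h).erase 0).image (fun d => rot d v) := by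
    ext w
    rw [mem_filter, mem_image]
    constructor
    · rintro ⟨-, d, hd, hd', rfl⟩
      exact ⟨d, mem_erase.mpr ⟨hd, mem_Icc.mpr (abs_le.mp hd')⟩, rfl⟩
    · rintro ⟨d, hd, rfl⟩
      rw [mem_erase, mem_Icc] at hd
      exact ⟨mem_univ _, d, hd.1, abs_le.mpr hd.2, rfl⟩
  rw [h5, Finset.card_image_of_injOn]
  · rw [Finset.card_erase_of_mem (by simp), Int.card_Icc]
    omega
  · intro a ha b hb hab
    rw [mem_coe, mem_erase, mem_Icc] at ha hb
    refine rot_inj r h2 h3 ?_ hab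
    rw [abs_lt]
    constructor <;> omega

theorem KR_cover {rot : ℤ → W → W} (r : W → W → Prop) [DecidableRel r]
    (h2 : ∀ a b v, rot a (rot b v) = rot (a + b) v)
    (h3 : ∀ d v, rot d v = v ↔ ((cls r v).card : ℤ) ∣ d)
    (h4 : ∀ v w, r v w → ∃ n : ℕ, n < (cls r v).card ∧ rot n v = w) (h : ℕ) (v : W)
    (hh : (cls r v).card ≤ 2 * h + 2) (w : W) (hvw : r v w) (hne : w ≠ v) :
    KR rot h v w ∨ w = rot (h + 1) v := by
  obtain ⟨n, hn, rfl⟩ := h4 v w hvw
  have hn0 : n ≠ 0 := by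
    rintro rfl
    exact hne (rot_zero r h3 v)
  by_cases h5 : n ≤ h
  · left
    exact ⟨n, by exact_mod_cast hn0, by rw [abs_of_nonneg (by positivity)]; exact_mod_cast h5, rfl⟩
  · by_cases h6 : n = h + 1
    · right; rw [h6]; push_cast; rfl
    · left
      refine ⟨(n : ℤ) - (cls r v).card, ?_, ?_, ?_⟩
      · omega
      · rw [abs_le]; constructor <;> omega
      · have h7 : rot (-((cls r v).card : ℤ)) v = v := (h3 _ v).mpr (by simp)
        rw [sub_eq_add_neg, ← h2, h7]

end rot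

end Pool.Agent.Y344.WR
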