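import Pool.Agent.Y344.WR.Core
import Pool.Agent.Y344.WR.Rot
/-!
# Colouring a multigraph by peeling off classes of vertices
-/
set_option autoImplicit false
namespace Pool.Agent.Y344.WR

open Finset Pool.Agent.MPd14d18

section peel

variable {W : Type*} [Fintype W] [DecidableEq W]

theorem sum_mu (L : Finset ℕ) (m : ℕ → W → W) (u : W) : ∑ w, mu L m u w = L.card := by
  unfold mu
  rw [Finset.sum_comm]
  simp

theorem missing_add (L : Finset ℕ) (m : ℕ → W → W) (u : W) :
    (L.filter (fun c => m c u = u)).card + ∑ w ∈ univ.erase u, mu L m u w = L.card := by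
  rw [← mu_eq_card, Finset.add_sum_erase univ (fun w => mu L m u w) (mem_univ u), sum_mu]

/-- The multigraph with multiplicities `μ`, restricted to `U`, has an edge colouring with the
colours of `L`. -/
def Col (L : Finset ℕ) (μ : W → W → ℕ) (U : Finset W) : Prop :=
  ∃ m : ℕ → W → W, (∀ c v, m c (m c v) = v) ∧
    ∀ u w, u ≠ w → mu L m u w = if u ∈ U ∧ w ∈ U then μ u w else 0

theorem col_missing {L : Finset ℕ} {μ : W → W → ℕ} {U : Finset W} {m : ℕ → W → W}
    (h : ∀ u w, u ≠ w → mu L m u w = if u ∈ U ∧ w ∈ U then μ u w else 0)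
    (hμ0 : ∀ u, μ u u = 0) (z : W) :
    (L.filter (fun c => m c z = z)).card + (if z ∈ U then ∑ w ∈ U, μ z w else 0) = L.card := by
  rw [← missing_add L m z]
  congr 1
  have h1 : ∑ w ∈ univ.erase z, mu L m z w =
      ∑ w ∈ univ.erase z, if z ∈ U ∧ w ∈ U then μ z w else 0 := by
    refine Finset.sum_congr rfl fun w hw => ?_
    rw [mem_erase] at hw
    exact h z w hw.1.symm
  rw [h1, Finset.sum_erase univ (by simp [hμ0])]
  by_cases hz : z ∈ U
  · simp only [hz, if_true, true_and]
    rw [← Finset.sum_filter]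
    congr 1
    ext w; simp
  · simp [hz]

theorem col_empty (L : Finset ℕ) (μ : W → W → ℕ) : Col L μ ∅ := by
  refine ⟨fun _ v => v, fun _ _ => rfl, fun u w huw => ?_⟩
  simp [mu, huw]

theorem col_insert {L : Finset ℕ} {μ : W → W → ℕ} {U : Finset W} {x : W}
    (hμ : ∀ u w, μ u w = μ w u) (hμ0 : ∀ u, μ u u = 0) (h : Col L μ U) (hx : x ∉ U) (u0 : W)
    (h1 : ∑ w ∈ U, μ x w ≤ L.card)
    (h2 : ∀ z ∈ U, 0 < μ x z → ∑ w ∈ U, μ z w + 2 * μ x z ≤ L.card + if z = u0 then 1 else 0) :
    Col L μ (insert x U) := by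
  classical
  obtain ⟨m, hm, hmu⟩ := h
  have hmiss := col_missing hmu hμ0
  have hiso : ∀ c ∈ L, m c x = x := by
    have h3 := hmiss x
    rw [if_neg hx, add_zero] at h3
    exact Finset.card_filter_eq_iff.mp h3
  obtain ⟨m', hm', -, hmu'⟩ := add_vertex x L.card L rfl m hm hiso
    (fun u => if u ∈ U then μ x u else 0) u0 (by simp [hx])
    (by
      rw [← Finset.sum_filter]
      have : univ.filter (fun u => u ∈ U) = U := by ext w; simp
      rw [this]; exact h1)
    (by
      intro u hu
      by_cases huU : u ∈ U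
      · simp only [huU, if_true] at hu ⊢
        have h3 := h2 u huU hu
        have h4 := hmiss u
        rw [if_pos huU] at h4
        omega
      · simp [huU] at hu)
  refine ⟨m', hm', fun u w huw => ?_⟩
  rw [hmu' u w huw, hmu u w huw]
  simp only [mem_insert]
  by_cases hux : u = x
  · subst hux
    have hwu : w ≠ u := huw.symm
    by_cases hw : w ∈ U <;> simp [hx, hw, hwu]
  · by_cases hwx : w = x
    · subst hwx
      by_cases hu : u ∈ U
      · simp [hx, hu, hux, hμ u w]
      · simp [hu, hux]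
    · simp [hux, hwx]

/-- Adding a whole set of vertices. -/
theorem col_add {L : Finset ℕ} {μ : W → W → ℕ} {T : Finset W} (O : Finset W)
    (hμ : ∀ u w, μ u w = μ w u) (hμ0 : ∀ u, μ u u = 0) (h : Col L μ T) (hTO : Disjoint T O)
    (u0 : W → W)
    (h1 : ∀ x ∈ O, ∑ w ∈ T ∪ O, μ x w ≤ L.card)
    (h2 : ∀ x ∈ O, ∀ z ∈ T ∪ O, z ≠ x → 0 < μ x z →
      ∑ w ∈ T ∪ O, μ z w + μ x z ≤ L.card + if z = u0 x then 1 else 0) :
    Col L μ (T ∪ O) := by
  classical
  have key : ∀ Y : Finset W, Y ⊆ O → Col L μ (T ∪ Y) := by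
    intro Y
    induction Y using Finset.induction_on with
    | empty => intro _; rw [Finset.union_empty]; exact h
    | insert y Y hy ih =>
      intro hY
      have hyO : y ∈ O := hY (mem_insert_self _ _)
      have hYO : Y ⊆ O := fun z hz => hY (mem_insert_of_mem hz)
      rw [Finset.union_insert]
      have hsub : T ∪ Y ⊆ T ∪ O := Finset.union_subset_union_right hYO
      have hyn : y ∉ T ∪ Y := by
        rw [mem_union]
        rintro (h3 | h3)
        · exact Finset.disjoint_left.mp hTO h3 hyO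
        · exact hy h3
      refine col_insert hμ hμ0 (ih hYO) hyn (u0 y) ?_ ?_
      · exact le_trans (Finset.sum_le_sum_of_subset hsub) (h1 y hyO)
      · intro z hz hpos
        have hzy : z ≠ y := fun h3 => hyn (h3 ▸ hz)
        have h3 := h2 y hyO z (hsub hz) hzy hpos
        have h4 : ∑ w ∈ T ∪ Y, μ z w + μ y z ≤ ∑ w ∈ T ∪ O, μ z w := by
          rw [hμ y z, add_comm, ← Finset.sum_insert (f := fun w => μ z w) hyn]
          apply Finset.sum_le_sum_of_subset
          intro w hw
          rw [mem_insert] at hw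
          rcases hw with rfl | hw
          · exact mem_union_right _ hyO
          · exact hsub hw
        omega
  exact key O (Finset.Subset.refl _)

/-- The peeling argument on a connected piece `X`. -/
theorem col_component (r : W → W → Prop) [DecidableRel r] (hr : Equivalence r)
    (A : SimpleGraph W)
    (hE : ∀ v v' w, r v v' → A.Adj v w → ∃ w', r w w' ∧ A.Adj v' w')
    (μ : W → W → ℕ) (hμ : ∀ u w, μ u w = μ w u) (hμ0 : ∀ u, μ u u = 0)
    (L : Finset ℕ) (D : ℕ) (hD : 1 ≤ D) (X : Finset W)
    (hXr : ∀ v ∈ X, ∀ w, r v w → w ∈ X)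
    (hconn : ∀ S : Finset W, S ⊆ X → S.Nonempty → (∃ v ∈ X, v ∉ S) → (∀ v ∈ S, ∀ w, r v w → w ∈ S) →
      ∃ v ∈ S, ∃ w ∈ X, w ∉ S ∧ A.Adj v w)
    (hdeg : ∀ v ∈ X, ∑ w, μ v w + D ≤ L.card)
    (hμ1 : ∀ v w, A.Adj v w → ¬ r v w → 1 ≤ μ v w)
    (hμ2 : ∀ v w, ¬ r v w → μ v w ≤ 1)
    (hμ3 : ∀ v w, μ v w ≤ D + 1)
    (v0 : W) (hv0 : v0 ∈ X) (u0 : W → W)
    (hμ4 : ∀ x ∈ cls r v0, ∀ z, r x z → z ≠ u0 x → μ x z ≤ D) :
    Col L μ X := by
  classical
  have hmem : ∀ v, v ∈ cls r v := fun v => (mem_cls r v v).mpr (hr.refl v)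
  have claimA : ∀ (n : ℕ) (S : Finset W), S.card = n → S ⊆ X → (∀ v ∈ S, ∀ w, r v w → w ∈ S) →
      v0 ∉ S → Col L μ S := by
    intro n
    induction n using Nat.strong_induction_on with
    | _ n ih =>
      intro S hS hSX hSr hv0S
      by_cases hne : S.Nonempty
      · obtain ⟨v, hv, z, hzX, hzS, hvz⟩ := hconn S hSX hne ⟨v0, hv0, hv0S⟩ hSr
        have hOS : cls r v ⊆ S := fun w hw => hSr v hv w ((mem_cls r v w).mp hw)
        have hT : Col L μ (S \ cls r v) := by
          refine ih (S \ cls r v).card ?_ _ rfl (Finset.sdiff_subset.trans hSX) ?_ ?_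
          · rw [← hS]
            apply Finset.card_lt_card
            refine ⟨Finset.sdiff_subset, fun hsub => ?_⟩
            have := hsub hv
            rw [mem_sdiff] at this
            exact this.2 (hmem v)
          · intro a ha b hab
            rw [mem_sdiff, mem_cls] at ha ⊢
            exact ⟨hSr a ha.1 b hab, fun h => ha.2 (hr.trans h (hr.symm hab))⟩
          · rw [mem_sdiff]; exact fun h => hv0S h.1
        have hU : (S \ cls r v) ∪ cls r v = S := Finset.sdiff_union_of_subset hOS
        rw [← hU]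
        refine col_add (cls r v) hμ hμ0 hT Finset.sdiff_disjoint (fun x => x) ?_ ?_
        · intro x hx
          rw [hU]
          have h3 := hdeg x (hSX (hOS hx))
          have h4 : ∑ w ∈ S, μ x w ≤ ∑ w, μ x w :=
            Finset.sum_le_sum_of_subset (Finset.subset_univ S)
          omega
        · intro x hx z' hz' hne' _
          rw [hU] at hz' ⊢
          rw [if_neg hne']
          have h3 := hdeg z' (hSX hz')
          have h4 : ∑ w ∈ S, μ z' w ≤ ∑ w, μ z' w :=
            Finset.sum_le_sum_of_subset (Finset.subset_univ S)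
          by_cases hrel : r x z'
          · -- `z'` lies in the class of `v`
            have hvz' : r v z' := hr.trans ((mem_cls r v x).mp hx) hrel
            obtain ⟨y, hzy, hz'y⟩ := hE v z' z hvz' hvz
            have hyS : y ∉ S := fun h => hzS (hSr y h z (hr.symm hzy))
            have hny : ¬ r z' y := fun h => hyS (hSr z' hz' y h)
            have h5 := hμ1 z' y hz'y hny
            have h6 : ∑ w ∈ S, μ z' w + μ z' y ≤ ∑ w, μ z' w := by
              rw [add_comm, ← Finset.sum_insert (f := fun w => μ z' w) hyS]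
              exact Finset.sum_le_sum_of_subset (Finset.subset_univ _)
            have h7 := hμ3 x z'
            omega
          · have h5 := hμ2 x z' hrel
            omega
      · rw [Finset.not_nonempty_iff_eq_empty] at hne
        rw [hne]
        exact col_empty L μ
  have hOX : cls r v0 ⊆ X := fun w hw => hXr v0 hv0 w ((mem_cls r v0 w).mp hw)
  have hT : Col L μ (X \ cls r v0) := by
    refine claimA _ _ rfl Finset.sdiff_subset ?_ ?_
    · intro a ha b hab
      rw [mem_sdiff, mem_cls] at ha ⊢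
      exact ⟨hXr a ha.1 b hab, fun h => ha.2 (hr.trans h (hr.symm hab))⟩
    · rw [mem_sdiff]; exact fun h => h.2 (hmem v0)
  have hU : (X \ cls r v0) ∪ cls r v0 = X := Finset.sdiff_union_of_subset hOX
  rw [← hU]
  refine col_add (cls r v0) hμ hμ0 hT Finset.sdiff_disjoint u0 ?_ ?_
  · intro x hx
    rw [hU]
    have h3 := hdeg x (hOX hx)
    have h4 : ∑ w ∈ X, μ x w ≤ ∑ w, μ x w :=
      Finset.sum_le_sum_of_subset (Finset.subset_univ X)
    omega
  · intro x hx z hz hne _
    rw [hU] at hz ⊢
    have h3 := hdeg z hz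
    have h4 : ∑ w ∈ X, μ z w ≤ ∑ w, μ z w :=
      Finset.sum_le_sum_of_subset (Finset.subset_univ X)
    by_cases hrel : r x z
    · by_cases hzu : z = u0 x
      · rw [if_pos hzu]
        have h7 := hμ3 x z
        omega
      · rw [if_neg hzu]
        have h7 := hμ4 x hx z hrel hzu
        omega
    · have h5 := hμ2 x z hrel
      split_ifs <;> omega

end peel

end Pool.Agent.Y344.WR
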